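import Pool.Agent.Helper30.DL.GoalsA

/-! # Packet KONE (helper30, MP_b4564f_an): the delays `k = 0` and `k = 1` -/

set_option autoImplicit false

open Filter Topology Finset

namespace Pool.Agent.Helper38.DL

open Pool.Agent.Helper30.DL

theorem kone (hU : ExtUStmt) (hD : ExtDStmt) : KoneStmt := by
  intro k p X hk hp hp1 hX
  by_contra hne
  -- the contraction factor
  set q : ℝ := p ^ 2 / (1 - p + p ^ 2) with hq
  have hden : 0 < 1 - p + p ^ 2 := by nlinarith
  have hq0 : 0 ≤ q := by positivity
  have hq1 : q < 1 := by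
    rw [hq, div_lt_one hden]
    linarith
  -- one step up
  have hup : ∀ m0 : ℝ, 0 ≤ m0 → m0 ≤ 1 → (∀ᶠ n in atTop, m0 ≤ X n) →
      ∀ᶠ n in atTop, X n ≤ 1 / (1 - p + p * m0) := by
    intro m0 h0 h1 hev
    have hg0 : 0 < 1 - p + p * m0 := by nlinarith
    have hg1 : 1 - p + p * m0 ≤ 1 := by nlinarith
    refine (hU k p X hp hp1 hX m0 (1 / (1 - p + p * m0)) h0 h1 ?_ ?_ hev).resolve_left hne
    · rw [le_div_iff₀ hg0]
      linarith
    · intro A hA1 hA2 hA3
      have hA0 : 0 < A := lt_of_lt_of_le hg0 hA1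
      have hfirst : A ≤ 1 - p + p * A := by nlinarith
      have hcase : k = 0 ∨ k = 1 := by omega
      rcases hcase with rfl | rfl
      · simp only [zero_add, Finset.prod_range_one, pow_zero, mul_one, max_eq_right hA3]
        rw [div_mul_eq_mul_div, one_mul, le_div_iff₀ hg0]
        nlinarith
      · rw [Finset.prod_range_succ, Finset.prod_range_one]
        simp only [pow_zero, mul_one, pow_one, max_eq_right hA3]
        have h2 : 1 - p + p * m0 ≤ 1 - p + p * max m0 (A * (1 - p + p * m0)) := by
          have := le_max_left m0 (A * (1 - p + p * m0))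
          nlinarith
        rw [div_mul_eq_mul_div, one_mul, le_div_iff₀ hg0]
        calc A * (1 - p + p * m0) ≤ (1 - p + p * A) * (1 - p + p * m0) :=
              mul_le_mul_of_nonneg_right hfirst hg0.le
          _ ≤ (1 - p + p * A) * (1 - p + p * max m0 (A * (1 - p + p * m0))) :=
              mul_le_mul_of_nonneg_left h2 (hA0.le.trans hfirst)
  -- one step down
  have hdn : ∀ B0 : ℝ, 1 ≤ B0 → (∀ᶠ n in atTop, X n ≤ B0) →
      ∀ᶠ n in atTop, 1 / (1 - p + p * B0) ≤ X n := by
    intro B0 h1 hev
    have hG1 : 1 ≤ 1 - p + p * B0 := by nlinarith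
    have hG0 : 0 < 1 - p + p * B0 := by linarith
    refine (hD k p X hp hp1 hX B0 (1 / (1 - p + p * B0)) h1 (by positivity) ?_ ?_ hev).resolve_left hne
    · rw [div_le_one hG0]
      exact hG1
    · intro A hA1 hA2 hA3
      have hA0 : 0 < A := by linarith
      have hfirst : 1 - p + p * A ≤ A := by nlinarith
      have hcase : k = 0 ∨ k = 1 := by omega
      rcases hcase with rfl | rfl
      · simp only [zero_add, Finset.prod_range_one, pow_zero, mul_one, min_eq_right hA3]
        rw [div_mul_eq_mul_div, one_mul, div_le_iff₀ hG0]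
        nlinarith
      · rw [Finset.prod_range_succ, Finset.prod_range_one]
        simp only [pow_zero, mul_one, pow_one, min_eq_right hA3]
        have h2 : 1 - p + p * min B0 (A * (1 - p + p * B0)) ≤ 1 - p + p * B0 := by
          have := min_le_left B0 (A * (1 - p + p * B0))
          nlinarith
        rw [div_mul_eq_mul_div, one_mul, div_le_iff₀ hG0]
        have h3 : 0 ≤ 1 - p + p * A := by nlinarith
        calc (1 - p + p * A) * (1 - p + p * min B0 (A * (1 - p + p * B0)))
            ≤ (1 - p + p * A) * (1 - p + p * B0) := mul_le_mul_of_nonneg_left h2 h3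
          _ ≤ A * (1 - p + p * B0) := mul_le_mul_of_nonneg_right hfirst hG0.le
  have hqj : ∀ j : ℕ, 0 ≤ q ^ j ∧ q ^ j ≤ 1 := fun j =>
    ⟨pow_nonneg hq0 j, pow_le_one₀ hq0 hq1.le⟩
  have hlow : ∀ j : ℕ, ∀ᶠ n in atTop, 1 - q ^ j ≤ X n := by
    intro j
    induction j with
    | zero =>
      refine Eventually.of_forall fun n => ?_
      rw [pow_zero, sub_self]
      exact (hX.1 n).le
    | succ j ih =>
      obtain ⟨hj0, hj1⟩ := hqj j
      have h1 := hup (1 - q ^ j) (by linarith) (by linarith) ih
      have hg0 : 0 < 1 - p + p * (1 - q ^ j) := by nlinarith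
      have hB : 1 ≤ 1 / (1 - p + p * (1 - q ^ j)) := by
        rw [le_div_iff₀ hg0]
        nlinarith
      have h2 := hdn _ hB h1
      filter_upwards [h2] with n hn
      refine le_trans ?_ hn
      set t := q ^ j with ht
      have hG0 : 0 < 1 - p + p * (1 / (1 - p + p * (1 - t))) := by
        have : 0 ≤ p * (1 / (1 - p + p * (1 - t))) := by positivity
        linarith
      rw [le_div_iff₀ hG0, pow_succ, ← ht]
      have hqe : q * (1 - p + p ^ 2) = p ^ 2 := by
        rw [hq]
        field_simp
      have key : (1 - t * q) * ((1 - p) * (1 - p + p * (1 - t)) + p) ≤ 1 - p + p * (1 - t) := by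
        have e1 : (1 - t * q) * ((1 - p) * (1 - p + p * (1 - t)) + p)
            = 1 - p + p * (1 - t) + (p ^ 2 * t - t * (q * (1 - p + p ^ 2)))
              - t * q * ((1 - p) * (p * (1 - t))) := by ring
        rw [e1, hqe]
        have h5 : 0 ≤ t * q * ((1 - p) * (p * (1 - t))) := by
          have : 0 ≤ 1 - t := by linarith
          have : 0 ≤ 1 - p := by linarith
          positivity
        nlinarith
      have e2 : (1 - t * q) * (1 - p + p * (1 / (1 - p + p * (1 - t))))
          = ((1 - t * q) * ((1 - p) * (1 - p + p * (1 - t)) + p)) / (1 - p + p * (1 - t)) := by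
        field_simp
      rw [e2, div_le_one hg0]
      exact key
  have hupp : ∀ j : ℕ, ∀ᶠ n in atTop, X n ≤ 1 / (1 - p + p * (1 - q ^ j)) := fun j =>
    hup (1 - q ^ j) (by linarith [(hqj j).2]) (by linarith [(hqj j).1]) (hlow j)
  have hqt : Tendsto (fun j : ℕ => q ^ j) atTop (𝓝 0) := tendsto_pow_atTop_nhds_zero_of_lt_one hq0 hq1
  apply hne
  rw [tendsto_order]
  constructor
  · intro a ha
    have h1 : ∀ᶠ j in atTop, q ^ j < 1 - a := (tendsto_order.1 hqt).2 _ (by linarith)
    obtain ⟨j, hj⟩ := h1.exists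
    filter_upwards [hlow j] with n hn
    linarith
  · intro a ha
    have h2 : Tendsto (fun j : ℕ => 1 / (1 - p + p * (1 - q ^ j))) atTop
        (𝓝 (1 / (1 - p + p * (1 - 0)))) := by
      refine Tendsto.div tendsto_const_nhds ?_ ?_
      · exact tendsto_const_nhds.add (tendsto_const_nhds.mul (tendsto_const_nhds.sub hqt))
      · norm_num
    have h3 : (1 / (1 - p + p * (1 - 0)) : ℝ) = 1 := by norm_num
    rw [h3] at h2
    obtain ⟨j, hj⟩ := ((tendsto_order.1 h2).2 a ha).exists
    filter_upwards [hupp j] with n hn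
    exact lt_of_le_of_lt hn hj

end Pool.Agent.Helper38.DL
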